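import Mathlib

/-!
# The number of points at which two permutations differ
-/

set_option autoImplicit false

namespace Pool.Agent.V7H30.FG

open Finset Equiv

variable {L : Type*} [Fintype L]

open Classical in
/-- the number of points at which `g` and `h` differ -/
noncomputable def dd (g h : Perm L) : ℕ := (univ.filter fun p => g p ≠ h p).card

theorem dd_self (g : Perm L) : dd g g = 0 := by simp [dd]

theorem dd_comm (g h : Perm L) : dd g h = dd h g := by
  classical
  unfold dd
  congr 1
  ext p
  simp only [mem_filter, mem_univ, true_and]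
  exact ne_comm

theorem dd_tri (g h k : Perm L) : dd g k ≤ dd g h + dd h k := by
  classical
  unfold dd
  refine (card_le_card ?_).trans (card_union_le _ _)
  intro p hp
  rw [mem_union, mem_filter, mem_filter]
  by_contra hc
  push Not at hc
  exact (mem_filter.1 hp).2 ((hc.1 (mem_univ _)).trans (hc.2 (mem_univ _)))

theorem dd_mul_left (k g h : Perm L) : dd (k * g) (k * h) = dd g h := by
  classical
  unfold dd
  congr 1
  ext p
  simp [Perm.mul_apply]

theorem dd_mul_right (g h k : Perm L) : dd (g * k) (h * k) = dd g h := by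
  classical
  unfold dd
  refine card_bij (fun p _ => k p) ?_ ?_ ?_
  · intro p hp
    exact mem_filter.2 ⟨mem_univ _, (mem_filter.1 hp).2⟩
  · intro p _ q _ hpq
    exact k.injective hpq
  · intro p hp
    have h1 : k (k⁻¹ p) = p := by simp
    refine ⟨k⁻¹ p, mem_filter.2 ⟨mem_univ _, ?_⟩, h1⟩
    change g (k (k⁻¹ p)) ≠ h (k (k⁻¹ p))
    rw [h1]
    exact (mem_filter.1 hp).2

theorem dd_inv (g h : Perm L) : dd g⁻¹ h⁻¹ = dd g h := by
  rw [← dd_mul_left g, ← dd_mul_right _ _ h, mul_inv_cancel, one_mul, mul_assoc, inv_mul_cancel,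
    mul_one, dd_comm]

/-- `g` is near to its inverse if its square is near to the identity -/
theorem dd_inv_self (g : Perm L) : dd g⁻¹ g = dd (g * g) 1 := by
  rw [← dd_mul_left g, mul_inv_cancel, dd_comm]

theorem dd_le (g h : Perm L) : dd g h ≤ Fintype.card L := by
  classical
  exact card_filter_le _ _

theorem dd_of_ne {g h : Perm L} (hgh : ∀ p, g p ≠ h p) : dd g h = Fintype.card L := by
  classical
  unfold dd
  rw [filter_true_of_mem fun p _ => hgh p, card_univ]

theorem dd_mul (g g' h h' : Perm L) : dd (g * h) (g' * h') ≤ dd g g' + dd h h' := by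
  refine (dd_tri _ (g' * h) _).trans ?_
  rw [dd_mul_right, dd_mul_left]

theorem dd_conj (g g' h : Perm L) : dd (h * g * h⁻¹) (h * g' * h⁻¹) = dd g g' := by
  rw [dd_mul_right, dd_mul_left]

end Pool.Agent.V7H30.FG
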