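import Pool.Agent.V7H30.FG.Near

/-!
# The group of a nearly closed family
-/

set_option autoImplicit false

namespace Pool.Agent.V7H30.FG

open Finset Equiv

variable {ι L : Type} [Fintype ι] [Fintype L] {s : ι → Perm L} {n K : ℕ} {G : Finset ι}

theorem Near.close (h : Near s n K G) {g g' : Perm L} (hg : g ∈ XX s n K) (hg' : g' ∈ XX s n K)
    {a : ℕ} (hd : dd g g' ≤ a * K) (ha : a ≤ 27) : dd g g' ≤ 4 * K := by
  rcases h.zero_one hg hg' with h1 | h1
  · exact h1
  · exfalso
    have h2 := h.hK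
    have h3 := h.n0
    have h4 : a * K ≤ 27 * K := Nat.mul_le_mul_right K ha
    omega

/-- near elements which are close to each other are identified -/
def Near.setoid (h : Near s n K G) : Setoid (XX s n K) where
  r g g' := dd (g : Perm L) g' ≤ 4 * K
  iseqv :=
    { refl := fun g => by rw [dd_self]; omega
      symm := fun {g g'} hg => by rwa [dd_comm]
      trans := fun {g g' g''} h1 h2 => by
        refine h.close g.2 g''.2 (a := 8) ?_ (by norm_num)
        have := dd_tri (g : Perm L) g' g''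
        omega }

/-- the set of the classes -/
def Near.Q (h : Near s n K G) : Type := Quotient h.setoid

noncomputable instance (h : Near s n K G) : Fintype h.Q := by
  classical
  exact @Quotient.fintype _ _ h.setoid (Classical.decRel _)

/-- the product of two near elements -/
noncomputable def Near.mu (h : Near s n K G) (g g' : XX s n K) : XX s n K :=
  ⟨(h.mul g.2 g'.2).choose, (h.mul g.2 g'.2).choose_spec.1⟩

theorem Near.mu_spec (h : Near s n K G) (g g' : XX s n K) :
    dd ((g : Perm L) * (g' : Perm L)) (h.mu g g') ≤ 5 * K := (h.mul g.2 g'.2).choose_spec.2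

/-- the class of a near element -/
def Near.cl (h : Near s n K G) (g : XX s n K) : h.Q := Quotient.mk h.setoid g

theorem Near.cl_eq (h : Near s n K G) {g g' : XX s n K} :
    h.cl g = h.cl g' ↔ dd (g : Perm L) g' ≤ 4 * K := Quotient.eq (r := h.setoid)

theorem Near.cl_surj (h : Near s n K G) (q : h.Q) : ∃ g, h.cl g = q := Quotient.exists_rep q

noncomputable instance Near.instMul (h : Near s n K G) : Mul h.Q :=
  ⟨Quotient.map₂ h.mu (by
    intro g g1 hg g' g1' hg'
    have h1 : dd (g : Perm L) g1 ≤ 4 * K := hg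
    have h2 : dd (g' : Perm L) g1' ≤ 4 * K := hg'
    change dd (h.mu g g' : Perm L) (h.mu g1 g1') ≤ 4 * K
    refine h.close (h.mu g g').2 (h.mu g1 g1').2 (a := 18) ?_ (by norm_num)
    have h3 := h.mu_spec g g'
    have h4 := h.mu_spec g1 g1'
    have h5 := dd_mul (g : Perm L) g1 g' g1'
    have h6 := dd_tri (h.mu g g' : Perm L) ((g : Perm L) * (g' : Perm L)) (h.mu g1 g1')
    have h7 := dd_tri ((g : Perm L) * (g' : Perm L)) ((g1 : Perm L) * (g1' : Perm L)) (h.mu g1 g1')
    rw [dd_comm (h.mu g g' : Perm L) ((g : Perm L) * (g' : Perm L))] at h6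
    omega)⟩

theorem Near.cl_mul (h : Near s n K G) (g g' : XX s n K) : h.cl g * h.cl g' = h.cl (h.mu g g') :=
  rfl

theorem Near.cl_mul_eq (h : Near s n K G) {g g' k : XX s n K} {a : ℕ}
    (hd : dd ((g : Perm L) * (g' : Perm L)) k ≤ a * K) (ha : a ≤ 22) : h.cl g * h.cl g' = h.cl k := by
  rw [h.cl_mul, h.cl_eq]
  refine h.close (h.mu g g').2 k.2 (a := a + 5) ?_ (by omega)
  have h1 := h.mu_spec g g'
  have h2 := dd_tri (h.mu g g' : Perm L) ((g : Perm L) * (g' : Perm L)) k
  rw [dd_comm (h.mu g g' : Perm L) ((g : Perm L) * (g' : Perm L))] at h2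
  rw [add_mul]
  omega

/-- the group structure -/
@[instance_reducible]
noncomputable def Near.grp (h : Near s n K G) : Group h.Q := by
  letI : One h.Q := ⟨h.cl ⟨1, one_mem⟩⟩
  letI : Inv h.Q := ⟨fun x => x⟩
  refine Group.ofLeftAxioms ?_ ?_ ?_
  · intro a b c
    obtain ⟨x, rfl⟩ := h.cl_surj a
    obtain ⟨y, rfl⟩ := h.cl_surj b
    obtain ⟨z, rfl⟩ := h.cl_surj c
    rw [h.cl_mul y z, h.cl_mul x (h.mu y z), h.cl_mul x y]
    have h1 := h.mu_spec x y
    have h2 := h.mu_spec y z
    have h3 := h.mu_spec x (h.mu y z)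
    refine h.cl_mul_eq (a := 15) ?_ (by norm_num)
    have h4 := dd_tri ((h.mu x y : Perm L) * (z : Perm L)) ((x : Perm L) * (y : Perm L) * (z : Perm L))
      (h.mu x (h.mu y z))
    rw [dd_mul_right, dd_comm (h.mu x y : Perm L)] at h4
    have h5 := dd_tri ((x : Perm L) * (y : Perm L) * (z : Perm L)) ((x : Perm L) * (h.mu y z : Perm L))
      (h.mu x (h.mu y z))
    rw [mul_assoc (x : Perm L) y z, dd_mul_left] at h5
    rw [mul_assoc (x : Perm L) y z] at h4
    omega
  · intro a
    obtain ⟨x, rfl⟩ := h.cl_surj a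
    refine h.cl_mul_eq (g := ⟨1, one_mem⟩) (a := 0) ?_ (by norm_num)
    change dd ((1 : Perm L) * (x : Perm L)) x ≤ 0 * K
    rw [one_mul, dd_self]
    omega
  · intro a
    obtain ⟨x, rfl⟩ := h.cl_surj a
    change h.cl x * h.cl x = h.cl ⟨1, one_mem⟩
    exact h.cl_mul_eq (a := 20) (h.sq_near x.2) (by norm_num)

theorem Near.card_pow (h : Near s n K G) : ∃ m, Fintype.card h.Q = 2 ^ m := by
  let _ : Group h.Q := h.grp
  have h2 : Fact (Nat.Prime 2) := ⟨Nat.prime_two⟩
  rw [← Nat.card_eq_fintype_card, ← IsPGroup.iff_card]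
  intro a
  refine ⟨1, ?_⟩
  rw [pow_one, pow_two]
  obtain ⟨x, rfl⟩ := h.cl_surj a
  change h.cl x * h.cl x = h.cl ⟨1, one_mem⟩
  exact h.cl_mul_eq (a := 20) (h.sq_near x.2) (by norm_num)

theorem Near.card_lower (h : Near s n K G) : n ≤ Fintype.card h.Q + {i | i ∉ G}.ncard := by
  classical
  have h1 : G.card ≤ Fintype.card h.Q := by
    let f : {x // x ∈ G} → h.Q := fun i => h.cl ⟨s i.1, h.mem i.2⟩
    have hf : Function.Injective f := by
      intro i j hij
      have h2 := h.cl_eq.1 hij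
      by_contra hne
      have h3 := h.ne (fun hc => hne (Subtype.ext hc) : (i : ι) ≠ j)
      change dd (s i) (s j) ≤ 4 * K at h2
      have := h.hK
      have := h.n0
      omega
    have h2 := Fintype.card_le_of_injective f hf
    rwa [Fintype.card_coe] at h2
  have h2 : {i | i ∉ G}.ncard = n - G.card := by
    have : {i | i ∉ G} = ((Gᶜ : Finset ι) : Set ι) := by
      ext i
      simp
    rw [this, Set.ncard_coe_finset, card_compl, h.cι]
  omega

theorem Near.card_upper (h : Near s n K G) :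
    n * Fintype.card h.Q ≤ n ^ 2 +
      2 * {x : ι × ι | ¬ ∃ k, dd (s x.1 * s x.2) (s k) ≤ K}.ncard + 2 * n * {i | i ∉ G}.ncard := by
  classical
  -- the classes of the members
  set T : Finset h.Q := univ.filter fun q => ∃ (i : ι) (hi : i ∈ G), q = h.cl ⟨s i, h.mem hi⟩ with hT
  set U : Finset h.Q := univ.filter fun q => ¬ ∃ (i : ι) (hi : i ∈ G), q = h.cl ⟨s i, h.mem hi⟩
    with hU
  have hTU : T.card + U.card = Fintype.card h.Q := by
    rw [← card_univ]
    exact card_filter_add_card_filter_not _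
  have hTn : T.card ≤ n := by
    have h1 : T ⊆ G.attach.image fun i : {x // x ∈ G} => h.cl ⟨s i.1, h.mem i.2⟩ := by
      intro q hq
      obtain ⟨i, hi, hq⟩ := (mem_filter.1 hq).2
      exact mem_image.2 ⟨⟨i, hi⟩, mem_attach _ _, hq.symm⟩
    refine (card_le_card h1).trans (card_image_le.trans ?_)
    rw [card_attach, ← h.cι]
    exact card_le_univ G
  -- the pairs
  set P : Set (ι × ι) := {x | x.1 ∈ G ∧ ∀ z ∈ G, ¬ dd (s x.1 * s x.2) (s z) ≤ K} with hP
  have hPc : P.ncard ≤ {x : ι × ι | ¬ ∃ k, dd (s x.1 * s x.2) (s k) ≤ K}.ncard +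
      n * {i | i ∉ G}.ncard := by
    set R : Set (ι × ι) := {x | ∃ z, z ∉ G ∧ dd (s x.1 * s x.2) (s z) ≤ K} with hR
    have h1 : P ⊆ {x : ι × ι | ¬ ∃ k, dd (s x.1 * s x.2) (s k) ≤ K} ∪ R := by
      rintro x ⟨h2, h3⟩
      by_cases h4 : ∃ k, dd (s x.1 * s x.2) (s k) ≤ K
      · obtain ⟨k, hk⟩ := h4
        exact Or.inr ⟨k, fun hkG => h3 k hkG hk, hk⟩
      · exact Or.inl h4
    have h2 : R.ncard ≤ ((univ : Finset ι) ×ˢ Gᶜ).card := by
      have hc : ∀ x : R, ∃ z, z ∉ G ∧ dd (s x.1.1 * s x.1.2) (s z) ≤ K := fun x => x.2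
      choose f hf1 hf2 using hc
      rw [← Nat.card_coe_set_eq, Nat.card_eq_fintype_card,
        ← Fintype.card_coe ((univ : Finset ι) ×ˢ Gᶜ)]
      refine Fintype.card_le_of_injective
        (fun x => ⟨(x.1.1, f x), mem_product.2 ⟨mem_univ _, mem_compl.2 (hf1 x)⟩⟩) ?_
      intro x y hxy
      have e1 := congrArg (fun t => t.1.1) hxy
      have e2 := congrArg (fun t => t.1.2) hxy
      simp only at e1 e2
      have g1 := hf2 x
      have g2 := hf2 y
      rw [← e2, ← e1] at g2
      have e3 : x.1.2 = y.1.2 := by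
        by_contra hne
        have h5 := h.ne hne
        have h6 := dd_tri (s x.1.1 * s x.1.2) (s (f x)) (s x.1.1 * s y.1.2)
        rw [dd_mul_left, dd_comm (s (f x))] at h6
        have := h.hK
        have := h.n0
        omega
      exact Subtype.ext (Prod.ext e1 e3)
    rw [card_product, card_univ, h.cι] at h2
    have h3 : {i | i ∉ G}.ncard = (Gᶜ).card := by
      have : {i | i ∉ G} = ((Gᶜ : Finset ι) : Set ι) := by
        ext i
        simp
      rw [this, Set.ncard_coe_finset]
    rw [h3]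
    have h4 := (Set.ncard_le_ncard h1 (Set.toFinite _)).trans (Set.ncard_union_le _ _)
    omega
  have hUP : U.card * n ≤ 2 * P.ncard := by
    -- representatives
    have hrep : ∀ q : h.Q, ∃ g : XX s n K, h.cl g = q := h.cl_surj
    choose r hr using hrep
    let V : h.Q → Finset ι := fun q => univ.filter fun v =>
      v ∈ G ∧ v ∈ Dm s K (r q : Perm L) ∧ pt s K (r q : Perm L) v ∈ G
    have hV : ∀ q, n ≤ 2 * (V q).card := by
      intro q
      have h1 := h.card_V (r q).2
      have h2 : {v | ¬ (v ∈ G ∧ v ∈ Dm s K (r q : Perm L) ∧ pt s K (r q : Perm L) v ∈ G)} =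
          (((V q)ᶜ : Finset ι) : Set ι) := by
        ext v
        simp [V]
      rw [h2, Set.ncard_coe_finset, card_compl, h.cι] at h1
      have h3 : (V q).card ≤ n := by
        rw [← h.cι]
        exact card_le_univ _
      omega
    have h1 : (U.sigma V).card ≤ P.toFinset.card := by
      refine card_le_card_of_injOn (fun x => (pt s K (r x.1 : Perm L) x.2, x.2)) ?_ ?_
      · rintro ⟨q, v⟩ hx
        obtain ⟨h2, h3⟩ := mem_sigma.1 (mem_coe.1 hx)
        simp only at h2 h3
        obtain ⟨h4, h5, h6⟩ := (mem_filter.1 h3).2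
        rw [mem_coe, Set.mem_toFinset]
        refine ⟨h6, fun z hz hd => ?_⟩
        apply (mem_filter.1 h2).2
        refine ⟨z, hz, ?_⟩
        rw [← hr q, h.cl_eq]
        simp only at hd
        have h7 := h.reset h4 (pt_spec h5)
        have h8 := dd_tri (r q : Perm L) (s (pt s K (r q : Perm L) v) * s v) (s z)
        change dd (r q : Perm L) (s z) ≤ 4 * K
        omega
      · rintro ⟨q, v⟩ hx ⟨q', v'⟩ hy hxy
        obtain ⟨h2, h3⟩ := mem_sigma.1 (mem_coe.1 hx)
        obtain ⟨h2', h3'⟩ := mem_sigma.1 (mem_coe.1 hy)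
        simp only at h2 h3 h2' h3'
        obtain ⟨h4, h5, h6⟩ := (mem_filter.1 h3).2
        obtain ⟨h4', h5', h6'⟩ := (mem_filter.1 h3').2
        obtain ⟨e1, e2⟩ := Prod.mk.inj hxy
        simp only at e1 e2
        subst e2
        have h7 := h.reset h4 (pt_spec h5)
        have h8 := h.reset h4' (pt_spec h5')
        rw [← e1] at h8
        have h9 := dd_tri (r q : Perm L) (s (pt s K (r q : Perm L) v) * s v) (r q' : Perm L)
        rw [dd_comm (s (pt s K (r q : Perm L) v) * s v)] at h9
        have h10 := h.close (r q).2 (r q').2 (a := 6) (by omega) (by norm_num)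
        have h11 : q = q' := by
          rw [← hr q, ← hr q', h.cl_eq]
          exact h10
        subst h11
        rfl
    rw [card_sigma, ← Set.ncard_eq_toFinset_card'] at h1
    have h2 : U.card * n ≤ 2 * ∑ q ∈ U, (V q).card := by
      rw [mul_sum, ← smul_eq_mul, ← sum_const]
      exact sum_le_sum fun q _ => hV q
    omega
  have e1 : n * Fintype.card h.Q = n * T.card + U.card * n := by
    rw [← hTU]
    ring
  have e2 : n * T.card ≤ n ^ 2 := by
    rw [pow_two]
    exact Nat.mul_le_mul_left n hTn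
  rw [e1]
  nlinarith

/-- the number of the members is near to a power of two -/
theorem Near.main (h : Near s n K G) : ∃ m : ℕ, n ≤ 2 ^ m + {i | i ∉ G}.ncard ∧
    n * 2 ^ m ≤ n ^ 2 +
      2 * {x : ι × ι | ¬ ∃ k, dd (s x.1 * s x.2) (s k) ≤ K}.ncard + 2 * n * {i | i ∉ G}.ncard := by
  obtain ⟨m, hm⟩ := h.card_pow
  refine ⟨m, ?_, ?_⟩
  · rw [← hm]
    exact h.card_lower
  · rw [← hm]
    exact h.card_upper

end Pool.Agent.V7H30.FG
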