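import Pool.Agent.V7H30.FG.Grp

/-!
# Latin squares with many intercalates
-/

set_option autoImplicit false

namespace Pool.Agent.V7H30.FG

open Finset Equiv

variable {A B L : Type} [Fintype A] [Fintype B] [Fintype L]

/-- The function `c` is a Latin square of order `n`. -/
structure Latin (c : A → B → L) (n : ℕ) : Prop where
  cA : Fintype.card A = n
  cB : Fintype.card B = n
  cL : Fintype.card L = n
  row : ∀ x, Function.Injective (c x)
  col : ∀ y, Function.Injective fun x => c x y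

/-- the quadruples which do not close -/
def Open (c : A → B → L) : Set ((A × A) × (B × B)) :=
  {t | c t.1.1 t.2.2 = c t.1.2 t.2.1 ∧ c t.1.2 t.2.2 ≠ c t.1.1 t.2.1}

variable {c : A → B → L} {n : ℕ}

/-- the row `x` as a bijection -/
noncomputable def Latin.th (h : Latin c n) (x : A) : B ≃ L :=
  Equiv.ofBijective (c x) ((Fintype.bijective_iff_injective_and_card _).2
    ⟨h.row x, by rw [h.cB, h.cL]⟩)

theorem Latin.th_apply (h : Latin c n) (x : A) (y : B) : h.th x y = c x y := rfl

/-- the permutation which maps the row `x` to the row `x'` -/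
noncomputable def Latin.tau (h : Latin c n) (x x' : A) : Perm L := (h.th x).symm.trans (h.th x')

theorem Latin.tau_apply (h : Latin c n) (x x' : A) (y : B) : h.tau x x' (c x y) = c x' y := by
  change (h.th x') ((h.th x).symm (h.th x y)) = _
  rw [Equiv.symm_apply_apply]
  rfl

theorem Latin.tau_mul (h : Latin c n) (o x x' : A) :
    h.tau o x' * (h.tau o x)⁻¹ = h.tau x x' := by
  ext p
  obtain ⟨y, rfl⟩ := (h.th x).surjective p
  have h1 : (h.tau o x)⁻¹ (h.th x y) = h.th o y := by
    rw [Perm.inv_eq_iff_eq]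
    simp [Latin.tau]
  rw [Perm.mul_apply, h1]
  simp [Latin.tau]

theorem Latin.tau_inj (h : Latin c n) {o x x' : A} {p : L} (hp : h.tau o x p = h.tau o x' p) :
    x = x' := by
  obtain ⟨y, rfl⟩ := (h.th o).surjective p
  rw [h.th_apply, h.tau_apply, h.tau_apply] at hp
  exact h.col y hp

open Classical in
/-- the number of the quadruples -/
theorem Latin.sum_dd (h : Latin c n) :
    ∑ x, ∑ x', dd (h.tau x x' * h.tau x x') 1 ≤ (Open c).ncard := by
  classical
  have h1 : ∑ x, ∑ x', dd (h.tau x x' * h.tau x x') 1 =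
      ((univ : Finset (A × A)).sigma fun z =>
        univ.filter fun p => (h.tau z.1 z.2 * h.tau z.1 z.2) p ≠ (1 : Perm L) p).card := by
    rw [card_sigma, ← Finset.univ_product_univ, sum_product]
    rfl
  rw [h1, Set.ncard_eq_toFinset_card']
  refine card_le_card_of_injOn (fun z => (z.1, ((h.th z.1.1).symm z.2,
    (h.th z.1.1).symm (h.tau z.1.1 z.1.2 z.2)))) ?_ ?_
  · rintro ⟨⟨x, x'⟩, p⟩ hz
    have h2 := (mem_filter.1 (mem_sigma.1 (mem_coe.1 hz)).2).2
    rw [mem_coe, Set.mem_toFinset]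
    obtain ⟨y, rfl⟩ := (h.th x).surjective p
    simp only at h2 ⊢
    rw [Perm.mul_apply, Perm.one_apply] at h2
    have e1 : h.tau x x' (h.th x y) = c x' y := by rw [h.th_apply, h.tau_apply]
    rw [e1] at h2 ⊢
    have e2 : c x ((h.th x).symm (c x' y)) = c x' y := by
      rw [← h.th_apply x, Equiv.apply_symm_apply]
    refine ⟨?_, ?_⟩
    · simp only [Equiv.symm_apply_apply]
      exact e2
    · simp only [Equiv.symm_apply_apply]
      intro e3
      apply h2
      rw [← e2, h.tau_apply, e3]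
      rfl
  · rintro ⟨⟨x, x'⟩, p⟩ _ ⟨⟨y, y'⟩, q⟩ _ hzw
    obtain ⟨e1, e2⟩ := Prod.mk.inj hzw
    obtain ⟨e3, e4⟩ := Prod.mk.inj e1
    subst e3
    subst e4
    have e5 := (Prod.mk.inj e2).1
    simp only at e5
    rw [(h.th x).symm.injective e5]

/-- a good base row -/
theorem Latin.exists_base (h : Latin c n) (hn : 0 < n) :
    ∃ o, n * ∑ x, dd (h.tau o x * h.tau o x) 1 ≤ (Open c).ncard := by
  by_contra hc
  push Not at hc
  have h1 := h.sum_dd
  have hA : (univ : Finset A).Nonempty := by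
    rw [← card_pos, card_univ, h.cA]
    exact hn
  have h2 : ∑ _x : A, (Open c).ncard < ∑ o, n * ∑ x, dd (h.tau o x * h.tau o x) 1 :=
    sum_lt_sum_of_nonempty hA fun o _ => hc o
  rw [sum_const, card_univ, h.cA, smul_eq_mul, ← mul_sum] at h2
  have h3 := lt_of_mul_lt_mul_left h2 (Nat.zero_le n)
  omega

section

variable {ι : Type} [Fintype ι]

/-- commutators -/
theorem dd_comm_le (x y : Perm L) : dd (x * y) (y * x) ≤
    dd (x * x) 1 + dd (y * y) 1 + dd (y * x⁻¹ * (y * x⁻¹)) 1 := by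
  have h1 : dd (x * y) (x * y⁻¹) = dd (y * y) 1 := by
    rw [dd_mul_left, dd_comm, dd_inv_self]
  have h2 : dd (x * y⁻¹) (y * x⁻¹) = dd (y * x⁻¹ * (y * x⁻¹)) 1 := by
    rw [← dd_inv_self, mul_inv_rev, inv_inv]
  have h3 : dd (y * x⁻¹) (y * x) = dd (x * x) 1 := by
    rw [dd_mul_left, dd_inv_self]
  have h4 := dd_tri (x * y) (x * y⁻¹) (y * x)
  have h5 := dd_tri (x * y⁻¹) (y * x⁻¹) (y * x)
  omega

open Classical in
theorem dd_sum (g g' : Perm L) : dd g g' = ∑ q, if g q ≠ g' q then 1 else 0 := by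
  rw [dd, card_filter]

open Classical in
/-- Products of two members: the number of the triples `(x, y, p)` and points `q` such that the
members through `(p, x y p)` and `(q, x y q)` are different. -/
theorem sum_prod (s : ι → Perm L) (hι : Fintype.card ι = Fintype.card L)
    (hs : ∀ i j p, s i p = s j p → i = j) (zz : ι → ι → L → ι)
    (hz : ∀ x y p, s (zz x y p) p = (s x * s y) p) :
    ∑ x, ∑ y, ∑ p, dd (s x * s y) (s (zz x y p)) ≤
      3 * (Fintype.card ι * ∑ x, ∑ y, dd (s x * s y) (s y * s x)) := by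
  -- the bijections `w ↦ s w p`
  have hb : ∀ p, Function.Bijective fun w => s w p := fun p =>
    (Fintype.bijective_iff_injective_and_card _).2 ⟨fun i j hij => hs i j p hij, hι⟩
  have h1 : ∀ x y p, dd (s x * s y) (s (zz x y p)) ≤
      (∑ w, if (s w * s y) p ≠ (s y * s w) p then 1 else 0) +
      (∑ w, if (s x * s w) (s y p) ≠ (s w * s x) (s y p) then 1 else 0) +
      ∑ w, if (s (zz x y p) * s w) p ≠ (s w * s (zz x y p)) p then 1 else 0 := by
    intro x y p
    rw [dd_sum, ← (Equiv.ofBijective _ (hb p)).sum_comp, ← sum_add_distrib, ← sum_add_distrib]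
    refine sum_le_sum fun w _ => ?_
    change (if (s x * s y) (s w p) ≠ s (zz x y p) (s w p) then 1 else 0) ≤ _
    by_cases a1 : (s w * s y) p ≠ (s y * s w) p
    · rw [if_pos a1]
      split_ifs <;> omega
    by_cases a2 : (s x * s w) (s y p) ≠ (s w * s x) (s y p)
    · rw [if_pos a2]
      split_ifs <;> omega
    by_cases a3 : (s (zz x y p) * s w) p ≠ (s w * s (zz x y p)) p
    · rw [if_pos a3]
      split_ifs <;> omega
    rw [if_neg a1, if_neg a2, if_neg a3, if_neg]
    rw [not_ne_iff] at a1 a2 a3 ⊢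
    have a4 := hz x y p
    simp only [Perm.mul_apply] at a1 a2 a3 a4 ⊢
    rw [a3, a4, ← a2, a1]
  have hN : ∀ f : ι → ι → ℕ, ∑ _x : ι, ∑ y, ∑ w, f y w = Fintype.card ι * ∑ y, ∑ w, f y w := by
    intro f
    rw [sum_const, card_univ, smul_eq_mul]
  set Bc := ∑ x, ∑ y, dd (s x * s y) (s y * s x) with hBc
  -- the three sums
  have t1 : ∑ x : ι, ∑ y, ∑ p, ∑ w, (if (s w * s y) p ≠ (s y * s w) p then 1 else 0) =
      Fintype.card ι * Bc := by
    have e : ∀ y, ∑ p, ∑ w, (if (s w * s y) p ≠ (s y * s w) p then 1 else 0) =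
        ∑ w, dd (s w * s y) (s y * s w) := by
      intro y
      rw [sum_comm]
      exact sum_congr rfl fun w _ => (dd_sum _ _).symm
    rw [sum_congr rfl fun x _ => sum_congr rfl fun y _ => e y, hN, sum_comm]
  have t2 : ∑ x, ∑ y, ∑ p, ∑ w, (if (s x * s w) (s y p) ≠ (s w * s x) (s y p) then 1 else 0) =
      Fintype.card ι * Bc := by
    have e : ∀ x y, ∑ p, ∑ w, (if (s x * s w) (s y p) ≠ (s w * s x) (s y p) then 1 else 0) =
        ∑ w, dd (s x * s w) (s w * s x) := by
      intro x y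
      rw [sum_comm]
      refine sum_congr rfl fun w _ => ?_
      rw [dd_sum]
      exact Equiv.sum_comp (s y) fun q => if (s x * s w) q ≠ (s w * s x) q then 1 else 0
    rw [sum_congr rfl fun x _ => sum_congr rfl fun y _ => e x y, sum_comm, hN]
  have t3 : ∑ x, ∑ y, ∑ p, ∑ w,
      (if (s (zz x y p) * s w) p ≠ (s w * s (zz x y p)) p then 1 else 0) =
      Fintype.card ι * Bc := by
    have e : ∀ y p, ∑ x, ∑ w, (if (s (zz x y p) * s w) p ≠ (s w * s (zz x y p)) p then 1 else 0) =
        ∑ z, ∑ w, (if (s z * s w) p ≠ (s w * s z) p then 1 else 0) := by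
      intro y p
      have hb' : Function.Bijective fun x => zz x y p := by
        refine (Fintype.bijective_iff_injective_and_card _).2 ⟨fun x x' hxx => ?_, rfl⟩
        have e1 := hz x y p
        have e2 := hz x' y p
        simp only at hxx
        rw [hxx, e2] at e1
        simp only [Perm.mul_apply] at e1
        exact (hs _ _ _ e1).symm
      exact (Equiv.ofBijective _ hb').sum_comp
        fun z => ∑ w, (if (s z * s w) p ≠ (s w * s z) p then 1 else 0)
    calc ∑ x, ∑ y, ∑ p, ∑ w, (if (s (zz x y p) * s w) p ≠ (s w * s (zz x y p)) p then 1 else 0)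
        = ∑ y, ∑ p, ∑ x, ∑ w,
          (if (s (zz x y p) * s w) p ≠ (s w * s (zz x y p)) p then 1 else 0) := by
          rw [sum_comm]
          exact sum_congr rfl fun y _ => sum_comm
      _ = ∑ _y : ι, ∑ p, ∑ z, ∑ w, (if (s z * s w) p ≠ (s w * s z) p then 1 else 0) :=
          sum_congr rfl fun y _ => sum_congr rfl fun p _ => e y p
      _ = ∑ _y : ι, ∑ z, ∑ w, dd (s z * s w) (s w * s z) := by
          refine sum_congr rfl fun y _ => ?_
          rw [sum_comm]
          refine sum_congr rfl fun z _ => ?_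
          rw [sum_comm]
          exact sum_congr rfl fun w _ => (dd_sum _ _).symm
      _ = _ := hN _
  calc ∑ x, ∑ y, ∑ p, dd (s x * s y) (s (zz x y p)) ≤ ∑ x, ∑ y, ∑ p,
      ((∑ w, if (s w * s y) p ≠ (s y * s w) p then 1 else 0) +
      (∑ w, if (s x * s w) (s y p) ≠ (s w * s x) (s y p) then 1 else 0) +
      ∑ w, if (s (zz x y p) * s w) p ≠ (s w * s (zz x y p)) p then 1 else 0) :=
        sum_le_sum fun x _ => sum_le_sum fun y _ => sum_le_sum fun p _ => h1 x y p
    _ = Fintype.card ι * Bc + Fintype.card ι * Bc + Fintype.card ι * Bc := by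
        simp only [sum_add_distrib]
        rw [t1, t2, t3]
    _ = 3 * (Fintype.card ι * Bc) := by ring

end

/-- a power of two near to `n` -/
theorem exists_pow_near (n : ℕ) (hn : 0 < n) : ∃ m : ℕ, 3 * |(n : ℤ) - 2 ^ m| ≤ n := by
  have h1 : 2 ^ Nat.log 2 n ≤ n := Nat.pow_log_le_self 2 (by omega)
  have h2 : n < 2 ^ (Nat.log 2 n + 1) := Nat.lt_pow_succ_log_self (by norm_num) n
  set m := Nat.log 2 n with hm
  rw [pow_succ] at h2
  have h1' : (2 : ℤ) ^ m ≤ n := by exact_mod_cast h1
  have h2' : (n : ℤ) < 2 ^ m * 2 := by exact_mod_cast h2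
  by_cases h3 : 2 * (n : ℤ) ≤ 3 * 2 ^ m
  · refine ⟨m, ?_⟩
    rw [abs_of_nonneg (by linarith)]
    linarith
  · refine ⟨m + 1, ?_⟩
    rw [pow_succ, abs_of_neg (by linarith)]
    linarith

/-- **Latin squares with many intercalates.** -/
theorem Latin.main (h : Latin c n) (hn : 0 < n) :
    ∃ m : ℕ, (n : ℤ) ^ 2 * |(n : ℤ) - 2 ^ m| ≤ 8000 * (Open c).ncard := by
  classical
  obtain ⟨o, ho⟩ := h.exists_base hn
  set F := (Open c).ncard with hF
  set s : A → Perm L := h.tau o with hs
  set K := n / 32 with hK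
  have hK1 : 32 * K ≤ n := Nat.mul_div_le n 32
  have hK2 : n < 32 * (K + 1) := by omega
  have hinj : ∀ i j p, s i p = s j p → i = j := fun i j p hp => h.tau_inj hp
  have hcard : Fintype.card A = Fintype.card L := by rw [h.cA, h.cL]
  -- commutators
  have hcomm : ∑ x, ∑ y, dd (s x * s y) (s y * s x) ≤ 3 * F := by
    have h1 : ∀ x y, dd (s x * s y) (s y * s x) ≤
        dd (s x * s x) 1 + dd (s y * s y) 1 + dd (h.tau x y * h.tau x y) 1 := by
      intro x y
      rw [← h.tau_mul o x y]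
      exact dd_comm_le (s x) (s y)
    have h2 := h.sum_dd
    calc ∑ x, ∑ y, dd (s x * s y) (s y * s x) ≤ ∑ x, ∑ y,
        (dd (s x * s x) 1 + dd (s y * s y) 1 + dd (h.tau x y * h.tau x y) 1) :=
          sum_le_sum fun x _ => sum_le_sum fun y _ => h1 x y
      _ = n * ∑ x, dd (s x * s x) 1 + n * ∑ y, dd (s y * s y) 1 +
          ∑ x, ∑ y, dd (h.tau x y * h.tau x y) 1 := by
          simp only [sum_add_distrib, sum_const, card_univ, h.cA, smul_eq_mul, ← mul_sum]
      _ ≤ 3 * F := by omega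
  -- the third members
  have hz : ∀ x y p, ∃ z, s z p = (s x * s y) p := by
    intro x y p
    have hb : Function.Bijective fun w => s w p :=
      (Fintype.bijective_iff_injective_and_card _).2 ⟨fun i j hij => hinj i j p hij, hcard⟩
    exact hb.2 _
  choose zz hzz using hz
  have hprod := sum_prod s hcard hinj zz hzz
  rw [h.cA] at hprod
  -- bad pairs
  set β := {x : A × A | ¬ ∃ k, dd (s x.1 * s x.2) (s k) ≤ K}.ncard with hβ
  have hβ1 : β * (K + 1) ≤ 9 * F := by
    have h1 : β * (n * (K + 1)) ≤ ∑ x, ∑ y, ∑ p, dd (s x * s y) (s (zz x y p)) := by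
      rw [← sum_product', Finset.univ_product_univ, hβ, Set.ncard_eq_toFinset_card',
        ← smul_eq_mul, ← sum_const]
      refine (sum_le_sum fun z hz => ?_).trans (sum_le_sum_of_subset (subset_univ _))
      rw [Set.mem_toFinset] at hz
      have h2 : ∀ p, K + 1 ≤ dd (s z.1 * s z.2) (s (zz z.1 z.2 p)) := by
        intro p
        by_contra h3
        exact hz ⟨zz z.1 z.2 p, by omega⟩
      calc n * (K + 1) = ∑ _p : L, (K + 1) := by
            rw [sum_const, card_univ, h.cL, smul_eq_mul]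
        _ ≤ _ := sum_le_sum fun p _ => h2 p
    have h2 : β * (n * (K + 1)) ≤ n * (9 * F) := by
      refine h1.trans (hprod.trans ?_)
      nlinarith
    have h3 : n * (β * (K + 1)) ≤ n * (9 * F) := by
      calc n * (β * (K + 1)) = β * (n * (K + 1)) := by ring
        _ ≤ _ := h2
    exact Nat.le_of_mul_le_mul_left h3 hn
  have hβ2 : n * β ≤ 288 * F := by nlinarith
  -- good indices
  set G : Finset A := univ.filter fun i => 10 * {j | ¬ ∃ k, dd (s i * s j) (s k) ≤ K}.ncard ≤ n ∧
    dd (s i * s i) 1 ≤ K with hG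
  set g := {i | i ∉ G}.ncard with hg
  have hgb : n ^ 2 * g ≤ 2912 * F := by
    set T1 : Finset A := univ.filter fun i =>
      n < 10 * {j | ¬ ∃ k, dd (s i * s j) (s k) ≤ K}.ncard with hT1
    set T2 : Finset A := univ.filter fun i => K < dd (s i * s i) 1 with hT2
    have h1 : g ≤ T1.card + T2.card := by
      have h2 : {i | i ∉ G} ⊆ ((T1 ∪ T2 : Finset A) : Set A) := by
        intro i hi
        rw [mem_coe, mem_union]
        by_contra hc
        rw [not_or] at hc
        apply hi
        refine mem_filter.2 ⟨mem_univ _, ?_, ?_⟩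
        · by_contra hc'
          exact hc.1 (mem_filter.2 ⟨mem_univ _, not_le.1 hc'⟩)
        · by_contra hc'
          exact hc.2 (mem_filter.2 ⟨mem_univ _, not_le.1 hc'⟩)
      have h3 := Set.ncard_le_ncard h2 (Set.toFinite _)
      rw [Set.ncard_coe_finset] at h3
      exact h3.trans (card_union_le _ _)
    have h2 : n * T1.card ≤ 10 * β := by
      have h3 : β = ∑ i, {j | ¬ ∃ k, dd (s i * s j) (s k) ≤ K}.ncard := by
        rw [hβ, Set.ncard_eq_toFinset_card']
        have h4 : {x : A × A | ¬ ∃ k, dd (s x.1 * s x.2) (s k) ≤ K}.toFinset =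
            (univ ×ˢ univ).filter fun x : A × A => ¬ ∃ k, dd (s x.1 * s x.2) (s k) ≤ K := by
          ext x
          simp
        rw [h4, card_filter, sum_product]
        refine sum_congr rfl fun i _ => ?_
        rw [← card_filter, Set.ncard_eq_toFinset_card']
        congr 1
        ext j
        simp
      rw [h3, mul_sum, mul_comm, ← smul_eq_mul, ← sum_const]
      refine (sum_le_sum fun i hi => ?_).trans (sum_le_sum_of_subset (subset_univ _))
      exact (mem_filter.1 hi).2.le
    have h3 : (K + 1) * T2.card ≤ ∑ x, dd (s x * s x) 1 := by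
      rw [mul_comm, ← smul_eq_mul, ← sum_const]
      refine (sum_le_sum fun i hi => ?_).trans (sum_le_sum_of_subset (subset_univ _))
      exact (mem_filter.1 hi).2
    have h4 : n ^ 2 * T1.card ≤ 2880 * F := by nlinarith
    have h5 : n ^ 2 * T2.card ≤ 32 * F := by
      have h6 : n * T2.card ≤ 32 * ∑ x, dd (s x * s x) 1 := by nlinarith
      nlinarith
    nlinarith
  by_cases hbig : 8 * g < n
  · -- the group
    have hN : Near s n K G :=
      { cι := h.cA
        cL := h.cL
        n0 := hn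
        hK := hK1
        inj := hinj
        prod := fun i hi => (mem_filter.1 hi).2.1
        sq := fun i hi => (mem_filter.1 hi).2.2
        big := hbig }
    obtain ⟨m, h1, h2⟩ := hN.main
    rw [← hg] at h1 h2
    rw [← hβ] at h2
    refine ⟨m, ?_⟩
    have h1' : (n : ℤ) ≤ 2 ^ m + g := by exact_mod_cast h1
    have h2' : (n : ℤ) * 2 ^ m ≤ n ^ 2 + 2 * β + 2 * n * g := by exact_mod_cast h2
    have h3 : (n : ℤ) ^ 2 * g ≤ 2912 * F := by exact_mod_cast hgb
    have h4 : (n : ℤ) * β ≤ 288 * F := by exact_mod_cast hβ2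
    have h5 : (0 : ℤ) < n := by exact_mod_cast hn
    have h6 : (0 : ℤ) ≤ F := by positivity
    have h7 : (n : ℤ) ^ 2 * (n - 2 ^ m) ≤ 8000 * F := by
      calc (n : ℤ) ^ 2 * (n - 2 ^ m) ≤ n ^ 2 * g :=
            mul_le_mul_of_nonneg_left (by linarith) (sq_nonneg _)
        _ ≤ 2912 * F := h3
        _ ≤ _ := by linarith
    have h8 : (n : ℤ) ^ 2 * (2 ^ m - n) ≤ 8000 * F := by
      have a1 : (n : ℤ) * (n * 2 ^ m) ≤ n * (n ^ 2 + 2 * β + 2 * n * g) :=
        mul_le_mul_of_nonneg_left h2' h5.le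
      have a2 : (n : ℤ) * (n * 2 ^ m) = n ^ 2 * (2 ^ m - n) + n ^ 3 := by ring
      have a3 : (n : ℤ) * (n ^ 2 + 2 * β + 2 * n * g) = n ^ 3 + 2 * (n * β) + 2 * (n ^ 2 * g) := by
        ring
      linarith
    rcases abs_cases ((n : ℤ) - 2 ^ m) with ⟨e, _⟩ | ⟨e, _⟩
    · rw [e]
      exact h7
    · rw [e, neg_sub]
      exact h8
  · obtain ⟨m, hm⟩ := exists_pow_near n hn
    refine ⟨m, ?_⟩
    have h1 : n ^ 3 ≤ 23296 * F := by
      have : n ≤ 8 * g := by omega
      calc n ^ 3 = n ^ 2 * n := by ring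
        _ ≤ n ^ 2 * (8 * g) := Nat.mul_le_mul_left _ this
        _ ≤ _ := by nlinarith
    have h2 : (n : ℤ) ^ 3 ≤ 23296 * F := by exact_mod_cast h1
    have h3 : 3 * ((n : ℤ) ^ 2 * |(n : ℤ) - 2 ^ m|) ≤ n ^ 3 := by
      have a1 : (n : ℤ) ^ 2 * (3 * |(n : ℤ) - 2 ^ m|) ≤ (n : ℤ) ^ 2 * n :=
        mul_le_mul_of_nonneg_left hm (sq_nonneg _)
      have a2 : (n : ℤ) ^ 2 * (3 * |(n : ℤ) - 2 ^ m|) = 3 * ((n : ℤ) ^ 2 * |(n : ℤ) - 2 ^ m|) := by
        ring
      have a3 : (n : ℤ) ^ 2 * n = n ^ 3 := by ring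
      linarith
    have h4 : (0 : ℤ) ≤ F := by positivity
    linarith

end Pool.Agent.V7H30.FG
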