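import Pool.Agent.V7H30.FG.Dist

/-!
# Families of permutations which are nearly closed under products, and nearly involutions
-/

set_option autoImplicit false

namespace Pool.Agent.V7H30.FG

open Finset Equiv

variable {ι L : Type} [Fintype ι] [Fintype L]

/-- The family is sharply transitive; the products of most pairs are near to members, and the members
of `G` are nearly involutions. -/
structure Near (s : ι → Perm L) (n K : ℕ) (G : Finset ι) : Prop where
  cι : Fintype.card ι = n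
  cL : Fintype.card L = n
  n0 : 0 < n
  hK : 32 * K ≤ n
  inj : ∀ i j p, s i p = s j p → i = j
  prod : ∀ i ∈ G, 10 * {j | ¬ ∃ k, dd (s i * s j) (s k) ≤ K}.ncard ≤ n
  sq : ∀ i ∈ G, dd (s i * s i) 1 ≤ K
  big : 8 * {i | i ∉ G}.ncard < n

variable {s : ι → Perm L} {n K : ℕ} {G : Finset ι}

theorem Near.ne (h : Near s n K G) {i j : ι} (hij : i ≠ j) : dd (s i) (s j) = n := by
  rw [dd_of_ne fun p hp => hij (h.inj i j p hp), h.cL]

theorem Near.uniq (h : Near s n K G) {g : Perm L} {i j : ι} {a b : ℕ} (ha : dd g (s i) ≤ a)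
    (hb : dd g (s j) ≤ b) (hab : a + b < n) : i = j := by
  by_contra hij
  have h1 := h.ne hij
  have h2 := dd_tri (s i) g (s j)
  rw [dd_comm (s i) g] at h2
  omega

/-- the indices which `g` nearly moves to an index -/
def Dm (s : ι → Perm L) (K : ℕ) (g : Perm L) : Set ι := {v | ∃ u, dd (g * s v) (s u) ≤ 2 * K}

/-- the near elements -/
def XX (s : ι → Perm L) (n K : ℕ) : Set (Perm L) := {g | 5 * {v | v ∉ Dm s K g}.ncard ≤ n}

open Classical in
/-- the index to which `g` nearly moves `v` -/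
noncomputable def pt (s : ι → Perm L) (K : ℕ) (g : Perm L) (v : ι) : ι :=
  if h : ∃ u, dd (g * s v) (s u) ≤ 2 * K then h.choose else v

theorem pt_spec {g : Perm L} {v : ι} (hv : v ∈ Dm s K g) : dd (g * s v) (s (pt s K g v)) ≤ 2 * K := by
  have h : ∃ u, dd (g * s v) (s u) ≤ 2 * K := hv
  unfold pt
  rw [dif_pos h]
  exact h.choose_spec

theorem Near.pt_inj (h : Near s n K G) {g : Perm L} {v w : ι} (hv : v ∈ Dm s K g)
    (hw : w ∈ Dm s K g) (hvw : pt s K g v = pt s K g w) : v = w := by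
  have h1 := pt_spec hv
  have h2 := pt_spec hw
  rw [← hvw] at h2
  by_contra hne
  have h3 := h.ne hne
  have h4 := dd_tri (g * s v) (s (pt s K g v)) (g * s w)
  rw [dd_mul_left, dd_comm (s (pt s K g v))] at h4
  have := h.hK
  have := h.n0
  omega

/-- the points of `Dm` whose partner is in a set of small cardinality are few -/
theorem Near.pull (h : Near s n K G) (g : Perm L) (T : Set ι) :
    {v | v ∈ Dm s K g ∧ pt s K g v ∈ T}.ncard ≤ T.ncard := by
  refine Set.ncard_le_ncard_of_injOn (pt s K g) (fun v hv => hv.2) ?_ (Set.toFinite _)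
  intro v hv w hw hvw
  exact h.pt_inj hv.1 hw.1 hvw

theorem exists_not_mem {T : Set ι} (hT : T.ncard < Fintype.card ι) : ∃ v, v ∉ T := by
  by_contra hc
  push Not at hc
  have : T = Set.univ := Set.eq_univ_of_forall hc
  rw [this, Set.ncard_univ, Nat.card_eq_fintype_card] at hT
  omega

/-- products of two good members are near elements -/
theorem Near.fresh (h : Near s n K G) {i j : ι} (hi : i ∈ G) (hj : j ∈ G) :
    s i * s j ∈ XX s n K := by
  classical
  have h1 : {v | v ∉ Dm s K (s i * s j)} ⊆ {v | ¬ ∃ k, dd (s j * s v) (s k) ≤ K} ∪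
      {v | (∃ k, dd (s j * s v) (s k) ≤ K) ∧ v ∉ Dm s K (s i * s j)} := by
    intro v hv
    by_cases h2 : ∃ k, dd (s j * s v) (s k) ≤ K
    · exact Or.inr ⟨h2, hv⟩
    · exact Or.inl h2
  have h2 : {v | (∃ k, dd (s j * s v) (s k) ≤ K) ∧ v ∉ Dm s K (s i * s j)}.ncard ≤
      {w | ¬ ∃ k, dd (s i * s w) (s k) ≤ K}.ncard := by
    let f : ι → ι := fun v => if hv : ∃ k, dd (s j * s v) (s k) ≤ K then hv.choose else v
    have hf : ∀ v, (∃ k, dd (s j * s v) (s k) ≤ K) → dd (s j * s v) (s (f v)) ≤ K := by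
      intro v hv
      change dd (s j * s v) (s (if hv : ∃ k, dd (s j * s v) (s k) ≤ K then hv.choose else v)) ≤ K
      rw [dif_pos hv]
      exact hv.choose_spec
    refine Set.ncard_le_ncard_of_injOn f ?_ ?_ (Set.toFinite _)
    · rintro v ⟨hv1, hv2⟩ ⟨k, hk⟩
      apply hv2
      refine ⟨k, ?_⟩
      have h3 := dd_tri (s i * s j * s v) (s i * s (f v)) (s k)
      rw [mul_assoc, dd_mul_left] at h3
      have h4 := hf v hv1
      rw [mul_assoc]
      omega
    · intro v hv w hw hvw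
      have h3 := hf v hv.1
      have h4 := hf w hw.1
      rw [← hvw] at h4
      by_contra hne
      have h5 := h.ne hne
      have h6 := dd_tri (s j * s v) (s (f v)) (s j * s w)
      rw [dd_mul_left, dd_comm (s (f v))] at h6
      have := h.hK
      have := h.n0
      omega
  have h3 := (Set.ncard_le_ncard h1 (Set.toFinite _)).trans (Set.ncard_union_le _ _)
  have h4 := h.prod i hi
  have h5 := h.prod j hj
  change 5 * _ ≤ n
  omega

theorem Near.mem (h : Near s n K G) {i : ι} (hi : i ∈ G) : s i ∈ XX s n K := by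
  have h1 : {v | v ∉ Dm s K (s i)} ⊆ {v | ¬ ∃ k, dd (s i * s v) (s k) ≤ K} := by
    rintro v hv ⟨k, hk⟩
    exact hv ⟨k, by omega⟩
  have h2 := Set.ncard_le_ncard h1 (Set.toFinite _)
  have h3 := h.prod i hi
  change 5 * _ ≤ n
  omega

omit [Fintype ι] in
theorem one_mem : (1 : Perm L) ∈ XX s n K := by
  have h1 : {v | v ∉ Dm s K 1} = ∅ := by
    rw [Set.eq_empty_iff_forall_notMem]
    intro v hv
    exact hv ⟨v, by rw [one_mul, dd_self]; omega⟩
  change 5 * _ ≤ n
  rw [h1, Set.ncard_empty]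
  omega

/-- two near elements are close to each other or differ almost everywhere -/
theorem Near.zero_one (h : Near s n K G) {g g' : Perm L} (hg : g ∈ XX s n K) (hg' : g' ∈ XX s n K) :
    dd g g' ≤ 4 * K ∨ n ≤ dd g g' + 4 * K := by
  have h1 : 5 * {v | v ∉ Dm s K g}.ncard ≤ n := hg
  have h2 : 5 * {v | v ∉ Dm s K g'}.ncard ≤ n := hg'
  have := h.n0
  obtain ⟨v, hv⟩ : ∃ v, v ∉ {v | v ∉ Dm s K g} ∪ {v | v ∉ Dm s K g'} := by
    apply exists_not_mem
    rw [h.cι]
    have := Set.ncard_union_le {v | v ∉ Dm s K g} {v | v ∉ Dm s K g'}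
    omega
  rw [Set.mem_union, not_or] at hv
  have hv1 : v ∈ Dm s K g := not_not.1 hv.1
  have hv2 : v ∈ Dm s K g' := not_not.1 hv.2
  obtain ⟨u, hu⟩ := hv1
  obtain ⟨u', hu'⟩ := hv2
  have e : dd g g' = dd (g * s v) (g' * s v) := (dd_mul_right _ _ _).symm
  by_cases huu : u = u'
  · left
    subst huu
    have h3 := dd_tri (g * s v) (s u) (g' * s v)
    rw [dd_comm (s u)] at h3
    omega
  · right
    have h3 := h.ne huu
    have h4 := dd_tri (s u) (g * s v) (s u')
    have h5 := dd_tri (g * s v) (g' * s v) (s u')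
    rw [dd_comm (s u) (g * s v)] at h4
    omega

/-- the good indices with good partner -/
theorem Near.card_V (h : Near s n K G) {g : Perm L} (hg : g ∈ XX s n K) :
    20 * {v | ¬ (v ∈ G ∧ v ∈ Dm s K g ∧ pt s K g v ∈ G)}.ncard < 9 * n := by
  have h1 : 5 * {v | v ∉ Dm s K g}.ncard ≤ n := hg
  have h2 : {v | ¬ (v ∈ G ∧ v ∈ Dm s K g ∧ pt s K g v ∈ G)} ⊆
      ({v | v ∉ G} ∪ {v | v ∉ Dm s K g}) ∪ {v | v ∈ Dm s K g ∧ pt s K g v ∈ {i | i ∉ G}} := by
    intro v hv
    by_cases h3 : v ∈ G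
    · by_cases h4 : v ∈ Dm s K g
      · exact Or.inr ⟨h4, fun h5 => hv ⟨h3, h4, h5⟩⟩
      · exact Or.inl (Or.inr h4)
    · exact Or.inl (Or.inl h3)
  have h3 := Set.ncard_le_ncard h2 (Set.toFinite _)
  have h4 := Set.ncard_union_le ({v | v ∉ G} ∪ {v | v ∉ Dm s K g})
    {v | v ∈ Dm s K g ∧ pt s K g v ∈ {i | i ∉ G}}
  have h5 := Set.ncard_union_le {v | v ∉ G} {v | v ∉ Dm s K g}
  have h6 := h.pull g {i | i ∉ G}
  have h7 := h.big
  omega

/-- an element with one good partner of a good index is near to a product of two good members -/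
theorem Near.reset (h : Near s n K G) {g : Perm L} {v w : ι} {a : ℕ} (hv : v ∈ G)
    (hg : dd (g * s v) (s w) ≤ a) : dd g (s w * s v) ≤ a + K := by
  have h1 : dd g (s w * (s v)⁻¹) ≤ a := by
    rwa [← dd_mul_right _ _ (s v), mul_assoc, inv_mul_cancel, mul_one]
  have h2 : dd (s w * (s v)⁻¹) (s w * s v) ≤ K := by
    rw [dd_mul_left, dd_inv_self]
    exact h.sq v hv
  have h3 := dd_tri g (s w * (s v)⁻¹) (s w * s v)
  omega

/-- products of near elements -/
theorem Near.mul (h : Near s n K G) {g g' : Perm L} (hg : g ∈ XX s n K) (hg' : g' ∈ XX s n K) :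
    ∃ k ∈ XX s n K, dd (g * g') k ≤ 5 * K := by
  have h1 : 5 * {v | v ∉ Dm s K g}.ncard ≤ n := hg
  have h2 : 5 * {v | v ∉ Dm s K g'}.ncard ≤ n := hg'
  have h0 := h.n0
  -- the bad indices
  have p1 := h.pull g' {u | u ∉ Dm s K g}
  have p2 := h.pull g' {u | u ∈ Dm s K g ∧ pt s K g u ∈ {i | i ∉ G}}
  have p3 := h.pull g {i | i ∉ G}
  have p4 := h.big
  set T1 := {v | v ∉ Dm s K g'} with hT1
  set T2 := {v | v ∈ Dm s K g' ∧ pt s K g' v ∈ {u | u ∉ Dm s K g}} with hT2
  set T3 := {v | v ∈ Dm s K g' ∧ pt s K g' v ∈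
    {u | u ∈ Dm s K g ∧ pt s K g u ∈ {i | i ∉ G}}} with hT3
  set T4 := {v : ι | v ∉ G} with hT4
  obtain ⟨v, hv⟩ : ∃ v, v ∉ ((T1 ∪ T2) ∪ T3) ∪ T4 := by
    apply exists_not_mem
    rw [h.cι]
    have u1 := Set.ncard_union_le ((T1 ∪ T2) ∪ T3) T4
    have u2 := Set.ncard_union_le (T1 ∪ T2) T3
    have u3 := Set.ncard_union_le T1 T2
    omega
  simp only [Set.mem_union, not_or] at hv
  obtain ⟨⟨⟨hv1, hv2⟩, hv3⟩, hv4⟩ := hv
  have hv1' : v ∈ Dm s K g' := not_not.1 hv1
  have hv4' : v ∈ G := not_not.1 hv4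
  have hu : pt s K g' v ∈ Dm s K g := by
    by_contra hc
    exact hv2 ⟨hv1', hc⟩
  have hw : pt s K g (pt s K g' v) ∈ G := by
    by_contra hc
    exact hv3 ⟨hv1', hu, hc⟩
  refine ⟨s (pt s K g (pt s K g' v)) * s v, h.fresh hw hv4', ?_⟩
  have a1 := pt_spec hv1'
  have a2 := pt_spec hu
  have a3 : dd (g * g' * s v) (s (pt s K g (pt s K g' v))) ≤ 4 * K := by
    have a4 := dd_tri (g * g' * s v) (g * s (pt s K g' v)) (s (pt s K g (pt s K g' v)))
    rw [mul_assoc, dd_mul_left] at a4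
    rw [mul_assoc]
    omega
  have a5 := h.reset hv4' a3
  omega

/-- near elements are nearly involutions -/
theorem Near.sq_near (h : Near s n K G) {g : Perm L} (hg : g ∈ XX s n K) :
    dd (g * g) 1 ≤ 20 * K := by
  have h0 := h.n0
  have hV := h.card_V hg
  set V := {v | v ∈ G ∧ v ∈ Dm s K g ∧ pt s K g v ∈ G} with hVd
  have hV' : 20 * {v | v ∉ V}.ncard < 9 * n := hV
  -- members of `V` nearly invert `g`
  have hinv : ∀ v ∈ V, dd (s v * g * (s v)⁻¹) g⁻¹ ≤ 6 * K := by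
    rintro v ⟨h1, h2, h3⟩
    have a1 := pt_spec h2
    set u := pt s K g v
    have a2 : dd (g * s v * (g * s v)) 1 ≤ 5 * K := by
      have b1 := dd_mul (g * s v) (s u) (g * s v) (s u)
      have b2 := h.sq u h3
      have b3 := dd_tri (g * s v * (g * s v)) (s u * s u) 1
      omega
    have a3 : dd (s v * g * s v) g⁻¹ ≤ 5 * K := by
      rw [← dd_mul_left g, mul_inv_cancel]
      have : g * (s v * g * s v) = g * s v * (g * s v) := by simp only [mul_assoc]
      rw [this]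
      exact a2
    have a4 : dd (s v * g * (s v)⁻¹) (s v * g * s v) ≤ K := by
      rw [dd_mul_left, dd_inv_self]
      exact h.sq v h1
    have a5 := dd_tri (s v * g * (s v)⁻¹) (s v * g * s v) g⁻¹
    omega
  -- the choice of `v`, `v'`, `w`
  obtain ⟨v, hv⟩ : ∃ v, v ∉ {v | v ∉ V} := by
    apply exists_not_mem
    rw [h.cι]
    omega
  have hv : v ∈ V := not_not.1 hv
  have q1 := h.prod v hv.1
  obtain ⟨v', k, hv', hk, hkV⟩ : ∃ v' k, v' ∈ V ∧ dd (s v * s v') (s k) ≤ K ∧ k ∈ V := by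
    classical
    let f : ι → ι := fun v' => if hv' : ∃ k, dd (s v * s v') (s k) ≤ K then hv'.choose else v'
    have hf : ∀ v', (∃ k, dd (s v * s v') (s k) ≤ K) → dd (s v * s v') (s (f v')) ≤ K := by
      intro v' hv'
      change dd (s v * s v')
        (s (if hv' : ∃ k, dd (s v * s v') (s k) ≤ K then hv'.choose else v')) ≤ K
      rw [dif_pos hv']
      exact hv'.choose_spec
    set T1 := {v' | ¬ ∃ k, dd (s v * s v') (s k) ≤ K} with hT1
    set T2 := {v' | (∃ k, dd (s v * s v') (s k) ≤ K) ∧ f v' ∉ V} with hT2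
    have h2 : T2.ncard ≤ {v | v ∉ V}.ncard := by
      refine Set.ncard_le_ncard_of_injOn f (fun x hx => hx.2) ?_ (Set.toFinite _)
      intro x hx y hy hxy
      have h3 := hf x hx.1
      have h4 := hf y hy.1
      rw [← hxy] at h4
      by_contra hne
      have h5 := h.ne hne
      have h6 := dd_tri (s v * s x) (s (f x)) (s v * s y)
      rw [dd_mul_left, dd_comm (s (f x))] at h6
      have := h.hK
      omega
    obtain ⟨x, hx⟩ : ∃ x, x ∉ ({v | v ∉ V} ∪ T1) ∪ T2 := by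
      apply exists_not_mem
      rw [h.cι]
      have u1 := Set.ncard_union_le ({v | v ∉ V} ∪ T1) T2
      have u2 := Set.ncard_union_le {v | v ∉ V} T1
      omega
    simp only [Set.mem_union, not_or] at hx
    obtain ⟨⟨hx1, hx2⟩, hx3⟩ := hx
    have hx2' : ∃ k, dd (s v * s x) (s k) ≤ K := not_not.1 hx2
    refine ⟨x, f x, not_not.1 hx1, hf x hx2', ?_⟩
    by_contra hc
    exact hx3 ⟨hx2', hc⟩
  -- the computation
  have c1 := hinv v hv
  have c2 := hinv v' hv'
  have c3 := hinv k hkV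
  have c4 : dd (s v * s v' * g * (s v * s v')⁻¹) (s k * g * (s k)⁻¹) ≤ 2 * K := by
    have b1 := dd_mul (s v * s v' * g) (s k * g) (s v * s v')⁻¹ (s k)⁻¹
    rw [dd_mul_right, dd_inv] at b1
    omega
  have c5 : dd (s v * s v' * g * (s v * s v')⁻¹) (s v * g⁻¹ * (s v)⁻¹) ≤ 6 * K := by
    have : s v * s v' * g * (s v * s v')⁻¹ = s v * (s v' * g * (s v')⁻¹) * (s v)⁻¹ := by group
    rw [this, dd_conj]
    exact c2
  have c6 : dd (s v * g⁻¹ * (s v)⁻¹) g ≤ 6 * K := by
    have e1 : s v * g⁻¹ * (s v)⁻¹ = (s v * g * (s v)⁻¹)⁻¹ := by group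
    rw [e1]
    have e2 := dd_inv (s v * g * (s v)⁻¹) g⁻¹
    rw [inv_inv] at e2
    omega
  have c7 := dd_tri g (s v * g⁻¹ * (s v)⁻¹) g⁻¹
  have c8 := dd_tri (s v * g⁻¹ * (s v)⁻¹) (s v * s v' * g * (s v * s v')⁻¹) g⁻¹
  have c9 := dd_tri (s v * s v' * g * (s v * s v')⁻¹) (s k * g * (s k)⁻¹) g⁻¹
  rw [← dd_inv_self, dd_comm]
  rw [dd_comm g (s v * g⁻¹ * (s v)⁻¹)] at c7
  rw [dd_comm (s v * g⁻¹ * (s v)⁻¹) (s v * s v' * g * (s v * s v')⁻¹)] at c8
  omega

end Pool.Agent.V7H30.FG
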