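import Pool.Agent.V7H30.FG.Latin
import Pool.Agent.V7H30.DW.Base

/-!
# Quadrangles in projective planes
-/

set_option autoImplicit false

namespace Pool.Agent.V7H30.FG

open Finset
open Pool.Agent.V7H30.DW (Sym pts thr mem_pts mem_thr)

variable {V J : Type} [Fintype V] [Fintype J] {I : V → J → Prop} {n : ℕ}

theorem ln (h : Sym I (n ^ 2 + n + 1) (n + 1) 1) {x y : V} (hxy : x ≠ y) : ∃ b, I x b ∧ I y b := by
  classical
  have h1 := h.pp x y hxy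
  obtain ⟨b, hb⟩ := Finset.card_pos.1 (h1.symm ▸ one_pos)
  rw [mem_inter, mem_thr, mem_thr] at hb
  exact ⟨b, hb⟩

theorem ln_eq (h : Sym I (n ^ 2 + n + 1) (n + 1) 1) {x y : V} (hxy : x ≠ y) {b c : J} (h1 : I x b)
    (h2 : I y b) (h3 : I x c) (h4 : I y c) : b = c := by
  classical
  obtain ⟨d, hd⟩ := card_eq_one.1 (h.pp x y hxy)
  have e1 : b ∈ ({d} : Finset J) := by
    rw [← hd, mem_inter, mem_thr, mem_thr]
    exact ⟨h1, h2⟩
  have e2 : c ∈ ({d} : Finset J) := by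
    rw [← hd, mem_inter, mem_thr, mem_thr]
    exact ⟨h3, h4⟩
  rw [mem_singleton.1 e1, mem_singleton.1 e2]

theorem mt (h : Sym I (n ^ 2 + n + 1) (n + 1) 1) {b c : J} (hbc : b ≠ c) : ∃ x, I x b ∧ I x c := by
  classical
  have h1 := h.bb b c hbc
  obtain ⟨x, hx⟩ := Finset.card_pos.1 (h1.symm ▸ one_pos)
  rw [mem_inter, mem_pts, mem_pts] at hx
  exact ⟨x, hx⟩

theorem mt_eq (h : Sym I (n ^ 2 + n + 1) (n + 1) 1) {b c : J} (hbc : b ≠ c) {x y : V} (h1 : I x b)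
    (h2 : I x c) (h3 : I y b) (h4 : I y c) : x = y := by
  by_contra hxy
  exact hbc (ln_eq h hxy h1 h3 h2 h4)

/-- three collinear points -/
def Col (I : V → J → Prop) (x y z : V) : Prop := ∃ m, I x m ∧ I y m ∧ I z m

omit [Fintype V] [Fintype J] in
theorem Col.swap {x y z : V} (h : Col I x y z) : Col I y x z := by
  obtain ⟨m, h1, h2, h3⟩ := h
  exact ⟨m, h2, h1, h3⟩

/-- three lines through the point `Z` -/
structure Frame (I : V → J → Prop) (Z : V) (l a b : J) : Prop where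
  Zl : I Z l
  Za : I Z a
  Zb : I Z b
  ab : a ≠ b
  al : a ≠ l
  bl : b ≠ l

variable {Z : V} {l a b : J}

omit [Fintype V] [Fintype J] in
theorem Frame.swap (hF : Frame I Z l a b) : Frame I Z l b a :=
  ⟨hF.Zl, hF.Zb, hF.Za, hF.ab.symm, hF.bl, hF.al⟩

theorem Frame.exists_pt (h : Sym I (n ^ 2 + n + 1) (n + 1) 1) (hF : Frame I Z l a b) {X Y : V}
    (hX : I X a ∧ X ≠ Z) (hY : I Y b ∧ Y ≠ Z) : ∃ P, (I P l ∧ P ≠ Z) ∧ Col I X Y P := by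
  have hXY : X ≠ Y := by
    rintro rfl
    exact hX.2 (mt_eq h hF.ab hX.1 hY.1 hF.Za hF.Zb)
  obtain ⟨m, h1, h2⟩ := ln h hXY
  have hml : m ≠ l := by
    rintro rfl
    exact hX.2 (mt_eq h hF.al hX.1 h1 hF.Za hF.Zl)
  obtain ⟨P, h3, h4⟩ := mt h hml
  refine ⟨P, ⟨h4, ?_⟩, m, h1, h2, h3⟩
  rintro rfl
  have h5 := ln_eq h hX.2 hX.1 hF.Za h1 h3
  subst h5
  exact hY.2 (mt_eq h hF.ab h2 hY.1 hF.Za hF.Zb)

theorem Frame.pt_unique (h : Sym I (n ^ 2 + n + 1) (n + 1) 1) (hF : Frame I Z l a b) {X Y P Q : V}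
    (hX : I X a ∧ X ≠ Z) (hY : I Y b ∧ Y ≠ Z) (hP : I P l) (hQ : I Q l) (h1 : Col I X Y P)
    (h2 : Col I X Y Q) : P = Q := by
  have hXY : X ≠ Y := by
    rintro rfl
    exact hX.2 (mt_eq h hF.ab hX.1 hY.1 hF.Za hF.Zb)
  obtain ⟨m, a1, a2, a3⟩ := h1
  obtain ⟨m', b1, b2, b3⟩ := h2
  have e := ln_eq h hXY a1 a2 b1 b2
  subst e
  have hml : m ≠ l := by
    rintro rfl
    exact hX.2 (mt_eq h hF.al hX.1 a1 hF.Za hF.Zl)
  exact mt_eq h hml a3 hP b3 hQ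

theorem Frame.right_inj (h : Sym I (n ^ 2 + n + 1) (n + 1) 1) (hF : Frame I Z l a b)
    {X Y Y' P : V} (hX : I X a ∧ X ≠ Z) (hY : I Y b ∧ Y ≠ Z) (hY' : I Y' b ∧ Y' ≠ Z) (hP : I P l)
    (h1 : Col I X Y P) (h2 : Col I X Y' P) : Y = Y' := by
  have hXP : X ≠ P := by
    rintro rfl
    exact hX.2 (mt_eq h hF.al hX.1 hP hF.Za hF.Zl)
  obtain ⟨m, a1, a2, a3⟩ := h1
  obtain ⟨m', b1, b2, b3⟩ := h2
  have e := ln_eq h hXP a1 a3 b1 b3
  subst e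
  have hmb : m ≠ b := by
    rintro rfl
    exact hX.2 (mt_eq h hF.ab hX.1 a1 hF.Za hF.Zb)
  exact mt_eq h hmb a2 hY.1 b2 hY'.1

/-- The quadruples `X, X'` on `a` and `Y, Y'` on `b` such that `XY'` and `X'Y` meet on `l`, but `XY` and
`X'Y'` do not. -/
def Loc (I : V → J → Prop) (Z : V) (l a b : J) : Set ((V × V) × (V × V)) :=
  {q | (I q.1.1 a ∧ q.1.1 ≠ Z) ∧ (I q.1.2 a ∧ q.1.2 ≠ Z) ∧ (I q.2.1 b ∧ q.2.1 ≠ Z) ∧
    (I q.2.2 b ∧ q.2.2 ≠ Z) ∧ (∃ P, I P l ∧ Col I q.1.1 q.2.2 P ∧ Col I q.1.2 q.2.1 P) ∧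
    ¬ ∃ P, I P l ∧ Col I q.1.1 q.2.1 P ∧ Col I q.1.2 q.2.2 P}

open Classical in
theorem card_line (h : Sym I (n ^ 2 + n + 1) (n + 1) 1) {Z : V} {a : J} (hZ : I Z a) :
    Fintype.card {X : V // I X a ∧ X ≠ Z} = n := by
  rw [Fintype.card_of_subtype ((pts I a).erase Z)]
  · rw [card_erase_of_mem (mem_pts.2 hZ), h.bl]
    rfl
  · intro x
    rw [mem_erase, mem_pts]
    exact and_comm

theorem Frame.main (h : Sym I (n ^ 2 + n + 1) (n + 1) 1) (hF : Frame I Z l a b) (hn : 0 < n) {δ : ℕ}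
    (hδ : ∀ m : ℕ, (δ : ℤ) ≤ |(n : ℤ) - 2 ^ m|) : n ^ 2 * δ ≤ 8000 * (Loc I Z l a b).ncard := by
  classical
  have hc : ∀ (X : {X : V // I X a ∧ X ≠ Z}) (Y : {Y : V // I Y b ∧ Y ≠ Z}),
      ∃ P : {P : V // I P l ∧ P ≠ Z}, Col I X.1 Y.1 P.1 := by
    intro X Y
    obtain ⟨P, h1, h2⟩ := hF.exists_pt h X.2 Y.2
    exact ⟨⟨P, h1⟩, h2⟩
  choose c hc using hc
  have hL : Latin c n :=
    { cA := card_line h hF.Za
      cB := card_line h hF.Zb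
      cL := card_line h hF.Zl
      row := by
        intro X Y Y' hYY
        apply Subtype.ext
        refine hF.right_inj h X.2 Y.2 Y'.2 (c X Y).2.1 (hc X Y) ?_
        rw [hYY]
        exact hc X Y'
      col := by
        intro Y X X' hXX
        apply Subtype.ext
        have hXX' : c X Y = c X' Y := hXX
        refine hF.swap.right_inj h Y.2 X.2 X'.2 (c X Y).2.1 (hc X Y).swap ?_
        rw [hXX']
        exact (hc X' Y).swap }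
  obtain ⟨m, hm⟩ := hL.main hn
  have h1 : (Open c).ncard ≤ (Loc I Z l a b).ncard := by
    refine Set.ncard_le_ncard_of_injOn
      (fun t => ((t.1.1.1, t.1.2.1), (t.2.1.1, t.2.2.1))) ?_ ?_ (Set.toFinite _)
    · rintro ⟨⟨X, X'⟩, ⟨Y, Y'⟩⟩ ⟨h1, h2⟩
      refine ⟨X.2, X'.2, Y.2, Y'.2, ⟨(c X Y').1, (c X Y').2.1, hc X Y', ?_⟩, ?_⟩
      · change Col I X'.1 Y.1 (c X Y').1
        have e : c X Y' = c X' Y := h1
        rw [e]
        exact hc X' Y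
      · rintro ⟨P, h3, h4, h5⟩
        apply h2
        apply Subtype.ext
        have e1 := hF.pt_unique h X.2 Y.2 (c X Y).2.1 h3 (hc X Y) h4
        have e2 := hF.pt_unique h X'.2 Y'.2 (c X' Y').2.1 h3 (hc X' Y') h5
        exact e2.trans e1.symm
    · rintro ⟨⟨X, X'⟩, ⟨Y, Y'⟩⟩ _ ⟨⟨W, W'⟩, ⟨U, U'⟩⟩ _ hq
      simp only [Prod.mk.injEq] at hq
      obtain ⟨⟨e1, e2⟩, e3, e4⟩ := hq
      rw [Subtype.ext e1, Subtype.ext e2, Subtype.ext e3, Subtype.ext e4]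
  have h2 : (n : ℤ) ^ 2 * δ ≤ n ^ 2 * |(n : ℤ) - 2 ^ m| :=
    mul_le_mul_of_nonneg_left (hδ m) (sq_nonneg _)
  have h3 : ((Open c).ncard : ℤ) ≤ (Loc I Z l a b).ncard := by exact_mod_cast h1
  have h4 : ((n ^ 2 * δ : ℕ) : ℤ) ≤ ((8000 * (Loc I Z l a b).ncard : ℕ) : ℤ) := by
    push_cast
    linarith
  exact_mod_cast h4

/-- four points, no three of them collinear -/
def IsQuad (I : V → J → Prop) (q : (V × V) × (V × V)) : Prop :=
  q.1.1 ≠ q.1.2 ∧ q.2.1 ≠ q.2.2 ∧ ¬ Col I q.1.1 q.1.2 q.2.1 ∧ ¬ Col I q.1.1 q.1.2 q.2.2 ∧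
    ¬ Col I q.2.1 q.2.2 q.1.1 ∧ ¬ Col I q.2.1 q.2.2 q.1.2

/-- the three diagonal points are collinear -/
def Fano (I : V → J → Prop) (q : (V × V) × (V × V)) : Prop :=
  ∃ m, (∃ P, I P m ∧ Col I q.1.1 q.1.2 P ∧ Col I q.2.1 q.2.2 P) ∧
    (∃ P, I P m ∧ Col I q.1.1 q.2.1 P ∧ Col I q.1.2 q.2.2 P) ∧
    (∃ P, I P m ∧ Col I q.1.1 q.2.2 P ∧ Col I q.1.2 q.2.1 P)

theorem Frame.isQuad (h : Sym I (n ^ 2 + n + 1) (n + 1) 1) (hF : Frame I Z l a b)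
    {q : (V × V) × (V × V)} (hq : q ∈ Loc I Z l a b) : IsQuad I q := by
  obtain ⟨⟨X, X'⟩, ⟨Y, Y'⟩⟩ := q
  obtain ⟨hX, hX', hY, hY', ⟨P, hP, h1, h2⟩, h3⟩ := hq
  simp only at hX hX' hY hY' h1 h2 h3
  have hXX : X ≠ X' := by
    rintro rfl
    have e := hF.right_inj h hX hY' hY hP h1 h2
    subst e
    exact h3 ⟨P, hP, h1, h2⟩
  have hYY : Y ≠ Y' := by
    rintro rfl
    have e := hF.swap.right_inj h hY hX hX' hP h1.swap h2.swap
    subst e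
    exact h3 ⟨P, hP, h1, h2⟩
  have ha : ∀ W, I W b ∧ W ≠ Z → ¬ Col I X X' W := by
    rintro W hW ⟨m, a1, a2, a3⟩
    have e := ln_eq h hXX a1 a2 hX.1 hX'.1
    subst e
    exact hW.2 (mt_eq h hF.ab a3 hW.1 hF.Za hF.Zb)
  have hb : ∀ W, I W a ∧ W ≠ Z → ¬ Col I Y Y' W := by
    rintro W hW ⟨m, a1, a2, a3⟩
    have e := ln_eq h hYY a1 a2 hY.1 hY'.1
    subst e
    exact hW.2 (mt_eq h hF.ab hW.1 a3 hF.Za hF.Zb)
  exact ⟨hXX, hYY, ha Y hY, ha Y' hY', hb X hX, hb X' hX'⟩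

/-- the frame is determined by the quadrangle -/
theorem Frame.determined (h : Sym I (n ^ 2 + n + 1) (n + 1) 1) (hF : Frame I Z l a b)
    {q : (V × V) × (V × V)} (hq : q ∈ Loc I Z l a b) {W : V} {m : J} (hWm : I W m)
    (h1 : Col I q.1.1 q.1.2 W) (h2 : Col I q.2.1 q.2.2 W)
    (h3 : ∃ P, I P m ∧ Col I q.1.1 q.2.2 P ∧ Col I q.1.2 q.2.1 P) : W = Z ∧ m = l := by
  have hQ := hF.isQuad h hq
  obtain ⟨⟨X, X'⟩, ⟨Y, Y'⟩⟩ := q
  obtain ⟨hX, hX', hY, hY', ⟨P, hP, h4, h5⟩, h6⟩ := hq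
  obtain ⟨hXX, hYY, q1, q2, q3, q4⟩ := hQ
  simp only at hX hX' hY hY' h1 h2 h3 h4 h5 h6 hXX hYY q1 q2 q3 q4
  have hW : W = Z := by
    obtain ⟨s, a1, a2, a3⟩ := h1
    obtain ⟨t, b1, b2, b3⟩ := h2
    have e1 := ln_eq h hXX a1 a2 hX.1 hX'.1
    have e2 := ln_eq h hYY b1 b2 hY.1 hY'.1
    subst e1
    subst e2
    exact mt_eq h hF.ab a3 b3 hF.Za hF.Zb
  refine ⟨hW, ?_⟩
  subst hW
  obtain ⟨R, hR, h7, h8⟩ := h3
  -- the point `R` is the point `P`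
  have hXY' : X ≠ Y' := by
    rintro rfl
    exact hX.2 (mt_eq h hF.ab hX.1 hY'.1 hF.Za hF.Zb)
  have hX'Y : X' ≠ Y := by
    rintro rfl
    exact hX'.2 (mt_eq h hF.ab hX'.1 hY.1 hF.Za hF.Zb)
  have hRP : R = P := by
    obtain ⟨s, a1, a2, a3⟩ := h4
    obtain ⟨s', a1', a2', a3'⟩ := h7
    obtain ⟨t, b1, b2, b3⟩ := h5
    obtain ⟨t', b1', b2', b3'⟩ := h8
    have e1 := ln_eq h hXY' a1 a2 a1' a2'
    have e2 := ln_eq h hX'Y b1 b2 b1' b2'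
    subst e1
    subst e2
    have hst : s ≠ t := by
      rintro rfl
      exact q1 ⟨s, a1, b1, b2⟩
    exact mt_eq h hst a3' b3' a3 b3
  subst hRP
  have hRW : R ≠ W := by
    rintro rfl
    obtain ⟨s, a1, a2, a3⟩ := h4
    have e := ln_eq h hX.2 a1 a3 hX.1 hF.Za
    subst e
    exact hY'.2 (mt_eq h hF.ab a2 hY'.1 hF.Za hF.Zb)
  exact ln_eq h hRW hR hWm hP hF.Zl

theorem Frame.not_fano (h : Sym I (n ^ 2 + n + 1) (n + 1) 1) (hF : Frame I Z l a b)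
    {q : (V × V) × (V × V)} (hq : q ∈ Loc I Z l a b) : ¬ Fano I q := by
  rintro ⟨m, ⟨W, hW, h1, h2⟩, h3, h4⟩
  obtain ⟨-, e⟩ := hF.determined h hq hW h1 h2 h4
  subst e
  exact hq.2.2.2.2.2 h3

/-- the number of the quadrangles which are not Fano -/
theorem main (h : Sym I (n ^ 2 + n + 1) (n + 1) 1) (hn : 0 < n) {δ : ℕ}
    (hδ : ∀ m : ℕ, (δ : ℤ) ≤ |(n : ℤ) - 2 ^ m|) :
    (n ^ 2 + n + 1) * ((n + 1) * (n * (n - 1) * (n ^ 2 * δ))) ≤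
      8000 * {q : (V × V) × (V × V) | IsQuad I q ∧ ¬ Fano I q}.ncard := by
  classical
  set N := {q : (V × V) × (V × V) | IsQuad I q ∧ ¬ Fano I q} with hN
  -- the frames
  set Ω : Finset (V × J × J × J) := univ.filter fun f => Frame I f.1 f.2.1 f.2.2.1 f.2.2.2 with hΩ
  have h1 : (Ω.sigma fun f => (Loc I f.1 f.2.1 f.2.2.1 f.2.2.2).toFinset).card ≤
      N.toFinset.card := by
    refine card_le_card_of_injOn (fun x => x.2) ?_ ?_
    · rintro ⟨⟨Z, l, a, b⟩, q⟩ hx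
      obtain ⟨h2, h3⟩ := mem_sigma.1 (mem_coe.1 hx)
      have hF : Frame I Z l a b := (mem_filter.1 h2).2
      have hq : q ∈ Loc I Z l a b := Set.mem_toFinset.1 h3
      rw [mem_coe, Set.mem_toFinset]
      exact ⟨hF.isQuad h hq, hF.not_fano h hq⟩
    · rintro ⟨⟨Z, l, a, b⟩, q⟩ hx ⟨⟨Z', l', a', b'⟩, q'⟩ hx' hqq
      obtain ⟨h2, h3⟩ := mem_sigma.1 (mem_coe.1 hx)
      obtain ⟨h2', h3'⟩ := mem_sigma.1 (mem_coe.1 hx')
      have hF : Frame I Z l a b := (mem_filter.1 h2).2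
      have hq : q ∈ Loc I Z l a b := Set.mem_toFinset.1 h3
      have hF' : Frame I Z' l' a' b' := (mem_filter.1 h2').2
      have hq' : q' ∈ Loc I Z' l' a' b' := Set.mem_toFinset.1 h3'
      have e : q = q' := hqq
      subst e
      have hQ := hF.isQuad h hq
      have ea : a = a' := ln_eq h hQ.1 hq.1.1 hq.2.1.1 hq'.1.1 hq'.2.1.1
      have eb : b = b' := ln_eq h hQ.2.1 hq.2.2.1.1 hq.2.2.2.1.1 hq'.2.2.1.1 hq'.2.2.2.1.1
      have e2 := hF.determined h hq hF'.Zl ⟨a', hq'.1.1, hq'.2.1.1, hF'.Za⟩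
        ⟨b', hq'.2.2.1.1, hq'.2.2.2.1.1, hF'.Zb⟩ hq'.2.2.2.2.1
      obtain ⟨e3, e4⟩ := e2
      subst e3 e4 ea eb
      rfl
  rw [card_sigma] at h1
  have h2 : Ω.card * (n ^ 2 * δ) ≤ 8000 * N.ncard := by
    rw [Set.ncard_eq_toFinset_card' N]
    refine le_trans ?_ (Nat.mul_le_mul_left 8000 h1)
    rw [mul_sum, ← smul_eq_mul, ← sum_const]
    refine sum_le_sum fun f hf => ?_
    rw [← Set.ncard_eq_toFinset_card']
    exact Frame.main h (mem_filter.1 hf).2 hn hδ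
  -- the number of the frames
  have h3 : Ω.card = (n ^ 2 + n + 1) * ((n + 1) * (n * (n - 1))) := by
    have h4 : Ω.card = ((univ : Finset V).sigma fun Z => (thr I Z).sigma fun l =>
        ((thr I Z).erase l).offDiag).card := by
      refine card_bij (fun f _ => ⟨f.1, f.2.1, f.2.2⟩) ?_ ?_ ?_
      · rintro ⟨Z, l, a, b⟩ hf
        have hF : Frame I Z l a b := (mem_filter.1 hf).2
        simp only [mem_sigma, mem_univ, true_and, mem_thr, mem_offDiag, mem_erase]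
        exact ⟨hF.Zl, ⟨hF.al, hF.Za⟩, ⟨hF.bl, hF.Zb⟩, hF.ab⟩
      · rintro ⟨Z, l, a, b⟩ _ ⟨Z', l', a', b'⟩ _ hff
        simp only [Sigma.mk.injEq, heq_eq_eq] at hff
        obtain ⟨e1, e2, e3⟩ := hff
        rw [e1, e2, e3]
      · rintro ⟨Z, l, a, b⟩ hf
        simp only [mem_sigma, mem_univ, true_and, mem_thr, mem_offDiag, mem_erase] at hf
        exact ⟨(Z, l, a, b), mem_filter.2 ⟨mem_univ _,
          ⟨hf.1, hf.2.1.2, hf.2.2.1.2, hf.2.2.2, hf.2.1.1, hf.2.2.1.1⟩⟩, rfl⟩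
    rw [h4, card_sigma]
    have h5 : ∀ Z : V, ((thr I Z).sigma fun l => ((thr I Z).erase l).offDiag).card =
        (n + 1) * (n * (n - 1)) := by
      intro Z
      rw [card_sigma]
      have h6 : ∀ l ∈ thr I Z, (((thr I Z).erase l).offDiag).card = n * (n - 1) := by
        intro l hl
        rw [offDiag_card, card_erase_of_mem hl, h.pt, Nat.add_sub_cancel, Nat.mul_sub_one]
      rw [sum_congr rfl h6, sum_const, h.pt, smul_eq_mul]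
    rw [sum_congr rfl fun Z _ => h5 Z, sum_const, card_univ, h.cardP, smul_eq_mul]
  rw [h3] at h2
  calc (n ^ 2 + n + 1) * ((n + 1) * (n * (n - 1) * (n ^ 2 * δ)))
      = (n ^ 2 + n + 1) * ((n + 1) * (n * (n - 1))) * (n ^ 2 * δ) := by ring
    _ ≤ _ := h2

end Pool.Agent.V7H30.FG
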